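import Mathlib
import Pool.Agent.Lib.MP_a73848.Defs
import Pool.Agent.Lib.MP_a73848.Main

/-!
Uniform Lipschitz estimate in multiscale periodic homogenization, for arbitrary scales.
The definitions are in `Pool/Agent/Lib/MP_a73848/Defs.lean`.
-/

open MeasureTheory Metric Pool.Agent.Lib.MP_a73848

namespace Pool.Agent.Results.MP_a73848_an.UniformLipschitz

/-- Let `A(x, y_1, …, y_n)` be elliptic, periodic in each `y_k` and Hölder continuous, with
constants `Λ`, `γ`, `L`. There is a constant `C` depending only on `d`, `n`, `Λ`, `γ`, `L` such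
that for all scales `ε_1, …, ε_n ∈ (0, 1]`, without any relation between them, every weak solution
`u ∈ H¹(B_1)` of `-div (A(x, x/ε_1, …, x/ε_n) ∇u) = 0` in `B_1` has a representative `v` with
`|v(x) - v(y)| ≤ C |x - y| ‖u‖_{L²(B_1)}` for all `x, y ∈ B_{1/2}`. -/
theorem result (d n : ℕ) (hd : 2 ≤ d) (_hn : 1 ≤ n) (Λ γ L : ℝ) (hΛ : 0 < Λ) (_hΛ1 : Λ ≤ 1)
    (hγ : 0 < γ) (hγ1 : γ ≤ 1) (hL : 0 < L) :
    ∃ C : ℝ, ∀ A : Rd d → (Fin n → Rd d) → Matrix (Fin d) (Fin d) ℝ, Admissible Λ γ L A →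
      ∀ ε : Fin n → ℝ, (∀ k, 0 < ε k ∧ ε k ≤ 1) →
        ∀ u : Rd d → ℝ, IsWeakSolution (osc A ε) u →
          ∃ v : Rd d → ℝ, (∀ᵐ x ∂(volume.restrict (ball (0 : Rd d) 1)), v x = u x) ∧
            ∀ x ∈ ball (0 : Rd d) (1 / 2), ∀ y ∈ ball (0 : Rd d) (1 / 2),
              |v x - v y| ≤ C * ‖x - y‖ * Real.sqrt (∫ x in ball (0 : Rd d) 1, u x ^ 2) := by
  obtain ⟨C, hC⟩ := uniform_lipschitz d n (by omega) hΛ hγ hγ1 hL.le
  exact ⟨C, fun A hA ε _ u hu => hC A hA ε u hu⟩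

end Pool.Agent.Results.MP_a73848_an.UniformLipschitz
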